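import Pool.Agent.MP_f485b3_co.H43.Lists

set_option autoImplicit false

namespace Pool.Agent.Results.MP_f485b3_co.BeatThree

/-- `g` is a complete ruler: positive segments, and every `k` up to the length is a difference
of two marks (partial sums). -/
def Complete (g : List ℕ) : Prop :=
  (∀ x ∈ g, 0 < x) ∧
    ∀ k ≤ g.sum, ∃ i ≤ g.length, ∃ j ≤ g.length, (g.take i).sum + k = (g.take j).sum

/-- `g` is an optimal ruler: complete, minimal and maximal. -/
def Optimal (g : List ℕ) : Prop :=
  Complete g ∧ (∀ h, Complete h → h.sum = g.sum → g.length ≤ h.length) ∧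
    (∀ h, Complete h → h.length = g.length → h.sum ≤ g.sum)

/-- The Wichmann ruler `W(r,s)`. -/
def wichmann (r s : ℕ) : List ℕ :=
  List.replicate r 1 ++ [r + 1] ++ List.replicate r (2 * r + 1) ++
    List.replicate s (4 * r + 3) ++ List.replicate (r + 1) (2 * r + 2) ++ List.replicate r 1

/-- For every large `n` there is an optimal ruler with `n` segments and length at least
`n ^ 2 / 2.99` that is neither a Wichmann ruler nor the reversal of one. -/
theorem result : ∃ n0 : ℕ, ∀ n : ℕ, n0 ≤ n → ∃ g : List ℕ, Optimal g ∧ g.length = n ∧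
    100 * n ^ 2 ≤ 299 * g.sum ∧ ∀ r s : ℕ, g ≠ wichmann r s ∧ g ≠ (wichmann r s).reverse := by
  obtain ⟨n0, h⟩ := Pool.Agent.MP_f485b3_co.H43.longAll
  refine ⟨n0 + 1000, fun n hn => ?_⟩
  obtain ⟨g0, h1, h2, h3⟩ := h n (by omega)
  obtain ⟨g, k1, k2, k3, k4, k5⟩ := Pool.Agent.MP_f485b3_co.H43.optimal h1
  have h4 : g.length = n := k2.trans h2
  have h5 : ¬ 3 * g.sum ≤ g.length ^ 2 + 3 * g.length := by
    rw [h4]
    have : 1000 * n ≤ n ^ 2 := by nlinarith
    omega
  refine ⟨g, ⟨k1, k4, k5⟩, h4, by omega, fun r s => ⟨fun e => ?_, fun e => ?_⟩⟩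
  · exact h5 (Pool.Agent.MP_f485b3_co.H43.wich r s g e)
  · have := Pool.Agent.MP_f485b3_co.H43.wich r s g.reverse (by rw [e, List.reverse_reverse]; rfl)
    exact h5 (by simpa using this)

end Pool.Agent.Results.MP_f485b3_co.BeatThree
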